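import Mathlib

/-!
# The cap set theorem of Ellenberg and Gijswijt over `F_3`

A subset of `F_3^(3L)` without three different elements with sum zero has at most
`3 (343/16)^L` elements.  The proof is the slice rank argument of Tao.
-/

set_option autoImplicit false

namespace Pool.Agent.Q250.VSR

open Finset

/-- the coefficients of `1 - (a + b + c)^2` -/
def kap (p : Fin 3 × Fin 3 × Fin 3) : ZMod 3 :=
  if (p.1 : ℕ) + p.2.1 + p.2.2 = 0 then 1
  else if (p.1 : ℕ) + p.2.1 + p.2.2 = 2 then (if p.1 = 1 ∨ p.2.1 = 1 then 1 else -1)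
  else 0

lemma kap_id : ∀ a b c : ZMod 3, 1 - (a + b + c) ^ 2 =
    ∑ p : Fin 3 × Fin 3 × Fin 3, kap p * (a ^ (p.1 : ℕ) * b ^ (p.2.1 : ℕ) * c ^ (p.2.2 : ℕ)) := by
  decide +kernel

lemma kap_deg (p : Fin 3 × Fin 3 × Fin 3) (h : kap p ≠ 0) : (p.1 : ℕ) + p.2.1 + p.2.2 ≤ 2 := by
  unfold kap at h
  split_ifs at h with h1 h2 h3 <;> first | omega | (exact absurd rfl h)

lemma one_sub_sq : ∀ a : ZMod 3, 1 - a ^ 2 = if a = 0 then 1 else 0 := by decide

/-- monomials -/
def mono {N : ℕ} (e : Fin N → Fin 3) (x : Fin N → ZMod 3) : ZMod 3 := ∏ i, x i ^ (e i : ℕ)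

/-- the degree of a monomial -/
def dg {N : ℕ} (e : Fin N → Fin 3) : ℕ := ∑ i, (e i : ℕ)

lemma prod_ind {N : ℕ} (x : Fin N → ZMod 3) :
    ∏ i, (1 - (x i) ^ 2) = if x = 0 then (1 : ZMod 3) else 0 := by
  simp_rw [one_sub_sq]
  split_ifs with h
  · subst h; simp
  · obtain ⟨i, hi⟩ := Function.ne_iff.1 h
    exact prod_eq_zero (mem_univ i) (by simpa using hi)

lemma expand {N : ℕ} (x y z : Fin N → ZMod 3) :
    (if x + y + z = 0 then (1 : ZMod 3) else 0) =
      ∑ s : Fin N → Fin 3 × Fin 3 × Fin 3, (∏ i, kap (s i)) *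
        (mono (fun i => (s i).1) x * mono (fun i => (s i).2.1) y * mono (fun i => (s i).2.2) z) := by
  rw [← prod_ind (x + y + z)]
  simp only [Pi.add_apply, kap_id]
  rw [Finset.prod_univ_sum]
  rw [Fintype.piFinset_univ]
  refine sum_congr rfl fun s _ => ?_
  unfold mono
  rw [prod_mul_distrib, prod_mul_distrib, prod_mul_distrib]

/-- a subspace contains a function whose support is at least the dimension -/
lemma exists_support {ι : Type*} [Fintype ι] [DecidableEq ι] {F : Type*} [Field F] [DecidableEq F]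
    (W : Submodule F (ι → F)) : ∃ h ∈ W, Module.finrank F W ≤ (univ.filter fun x => h x ≠ 0).card := by
  classical
  -- maximal support
  have hne : (0 : ι → F) ∈ W := W.zero_mem
  obtain ⟨h, hW, hmax⟩ : ∃ h ∈ W, ∀ g ∈ W, (univ.filter fun x => g x ≠ 0).card ≤
      (univ.filter fun x => h x ≠ 0).card := by
    have hb : ∃ n : ℕ, ∀ g ∈ W, (univ.filter fun x => g x ≠ 0).card ≤ n :=
      ⟨Fintype.card ι, fun g _ => (card_le_univ _)⟩
    let n := Nat.find hb
    have hn := Nat.find_spec hb
    by_contra hcon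
    push Not at hcon
    obtain ⟨g0, hg0, hg0'⟩ := hcon 0 hne
    have hpos : 0 < n := by
      rw [Nat.pos_iff_ne_zero]
      intro h0
      have := hn g0 hg0
      rw [show Nat.find hb = 0 from h0] at this
      omega
    have := Nat.find_min hb (show n - 1 < Nat.find hb from Nat.sub_lt hpos one_pos)
    apply this
    intro g hg
    obtain ⟨g', hg', hlt⟩ := hcon g hg
    have := hn g' hg'
    change _ ≤ n - 1
    have h2 : (univ.filter fun x => g' x ≠ 0).card ≤ n := this
    omega
  refine ⟨h, hW, ?_⟩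
  by_contra hlt
  push Not at hlt
  set S := univ.filter fun x => h x ≠ 0 with hS
  let r : W →ₗ[F] (S → F) :=
    { toFun := fun g x => (g : ι → F) x
      map_add' := fun _ _ => rfl
      map_smul' := fun _ _ => rfl }
  have hker : LinearMap.ker r ≠ ⊥ := by
    intro hbot
    have h1 := LinearMap.finrank_range_add_finrank_ker r
    rw [hbot, finrank_bot, add_zero] at h1
    have h2 : Module.finrank F (LinearMap.range r) ≤ Module.finrank F (S → F) :=
      Submodule.finrank_le _
    rw [Module.finrank_fintype_fun_eq_card, Fintype.card_coe] at h2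
    omega
  obtain ⟨g, hg, hg0⟩ := (Submodule.ne_bot_iff _).1 hker
  have hgS : ∀ x ∈ S, (g : ι → F) x = 0 := by
    intro x hx
    have : r g = 0 := hg
    exact congrFun this ⟨x, hx⟩
  have hg1 : ∃ x, (g : ι → F) x ≠ 0 := by
    by_contra hc
    push Not at hc
    exact hg0 (Subtype.ext (funext hc))
  obtain ⟨x0, hx0⟩ := hg1
  have hx0S : x0 ∉ S := fun hh => hx0 (hgS x0 hh)
  have h3 := hmax (h + g) (W.add_mem hW g.2)
  have h4 : insert x0 S ⊆ univ.filter fun x => (h + (g : ι → F)) x ≠ 0 := by
    intro x hx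
    rw [mem_insert] at hx
    rw [mem_filter]
    refine ⟨mem_univ _, ?_⟩
    rcases hx with rfl | hx
    · have : h x = 0 := by
        by_contra hc
        exact hx0S (by rw [hS, mem_filter]; exact ⟨mem_univ _, hc⟩)
      rw [Pi.add_apply, this, zero_add]
      exact hx0
    · rw [Pi.add_apply, hgS x hx, add_zero]
      exact (mem_filter.1 hx).2
  have h5 := card_le_card h4
  rw [card_insert_of_notMem hx0S] at h5
  omega

/-- number of monomials of degree at most `2L` in `3L` variables -/
lemma card_mono (L : ℕ) : (univ.filter fun e : Fin (3 * L) → Fin 3 => dg e ≤ 2 * L).card * 16 ^ L ≤ 343 ^ L := by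
  have h1 : ∑ e : Fin (3 * L) → Fin 3, ∏ i, 2 ^ (2 - (e i : ℕ)) = 343 ^ L := by
    have := (Finset.prod_univ_sum (fun _ : Fin (3 * L) => (univ : Finset (Fin 3)))
      (fun _ (j : Fin 3) => 2 ^ (2 - (j : ℕ)))).symm
    rw [Fintype.piFinset_univ] at this
    rw [this]
    simp only [prod_const, card_univ, Fintype.card_fin]
    rw [show (∑ j : Fin 3, 2 ^ (2 - (j : ℕ))) = 7 by decide, pow_mul]
    norm_num
  rw [← h1, ← smul_eq_mul, ← sum_const]
  refine le_trans ?_ (sum_le_sum_of_subset (s := univ.filter fun e : Fin (3 * L) → Fin 3 => dg e ≤ 2 * L)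
    (filter_subset _ _))
  refine sum_le_sum fun e he => ?_
  rw [prod_pow_eq_pow_sum]
  have hd : dg e ≤ 2 * L := (mem_filter.1 he).2
  have h2 : ∑ i, (2 - (e i : ℕ)) + dg e = 2 * (3 * L) := by
    unfold dg
    rw [← sum_add_distrib]
    have : ∀ i, 2 - (e i : ℕ) + (e i : ℕ) = 2 := fun i => by have := (e i).2; omega
    simp only [this, sum_const, card_univ, Fintype.card_fin, smul_eq_mul]
    ring
  rw [show (16 : ℕ) = 2 ^ 4 by norm_num, ← pow_mul]
  exact Nat.pow_le_pow_right (by norm_num) (by omega)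

/-- the monomials of degree at most `2L` -/
def MO (L : ℕ) : Finset (Fin (3 * L) → Fin 3) := univ.filter fun e => dg e ≤ 2 * L

lemma mem_MO {L : ℕ} (e : Fin (3 * L) → Fin 3) : e ∈ MO L ↔ dg e ≤ 2 * L := by
  unfold MO
  rw [mem_filter]
  exact ⟨fun h => h.2, fun h => ⟨mem_univ _, h⟩⟩

theorem cap_le (L : ℕ) (A : Finset (Fin (3 * L) → ZMod 3))
    (hA : ∀ x ∈ A, ∀ y ∈ A, ∀ z ∈ A, x + y + z = 0 → x = y ∧ y = z) :
    A.card ≤ 3 * (MO L).card := by
  classical
  obtain ⟨Mo, hMo'⟩ : ∃ Mo : Finset (Fin (3 * L) → Fin 3), Mo = MO L := ⟨_, rfl⟩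
  have hMo : ∀ e, e ∈ Mo ↔ dg e ≤ 2 * L := fun e => by rw [hMo', mem_MO]
  rw [← hMo']
  -- the functions orthogonal to the monomials
  let ev : (A → ZMod 3) →ₗ[ZMod 3] (Mo → ZMod 3) :=
    { toFun := fun h e => ∑ x : A, h x * mono e.1 x.1
      map_add' := fun h g => by
        funext e
        simp only [Pi.add_apply, add_mul, sum_add_distrib]
      map_smul' := fun c h => by
        funext e
        simp only [Pi.smul_apply, smul_eq_mul, RingHom.id_apply, mul_sum, mul_assoc] }
  obtain ⟨h, hW, hsupp⟩ := exists_support (LinearMap.ker ev)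
  have hrn := LinearMap.finrank_range_add_finrank_ker ev
  have hran : Module.finrank (ZMod 3) (LinearMap.range ev) ≤ Mo.card := by
    refine (Submodule.finrank_le _).trans ?_
    rw [Module.finrank_fintype_fun_eq_card, Fintype.card_coe]
  rw [Module.finrank_fintype_fun_eq_card, Fintype.card_coe] at hrn
  have horth : ∀ e ∈ Mo, ∑ x : A, h x * mono e x.1 = 0 := fun e he =>
    congrFun (show ev h = 0 from hW) ⟨e, he⟩
  -- the terms
  let c : (Fin (3 * L) → Fin 3 × Fin 3 × Fin 3) → ZMod 3 := fun s =>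
    (∏ i, kap (s i)) * ∑ x : A, h x * mono (fun i => (s i).1) x.1
  have hc : ∀ s, c s ≠ 0 → (fun i => (s i).2.1) ∈ Mo ∨ (fun i => (s i).2.2) ∈ Mo := by
    intro s hs
    by_contra hcon
    push Not at hcon
    have h1 : (fun i => (s i).1) ∉ Mo := by
      intro hh
      apply hs
      change _ * _ = (0 : ZMod 3)
      rw [horth _ hh, mul_zero]
    have h2 : ∀ i, kap (s i) ≠ 0 := by
      intro i hi
      apply hs
      change _ * _ = (0 : ZMod 3)
      rw [prod_eq_zero (mem_univ i) hi, zero_mul]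
    rw [hMo, not_le] at h1
    rw [hMo, hMo, not_le, not_le] at hcon
    unfold dg at h1 hcon
    have h3 : ∑ i : Fin (3 * L), (((s i).1 : ℕ) + ((s i).2.1 : ℕ) + ((s i).2.2 : ℕ)) ≤ ∑ _i : Fin (3 * L), 2 :=
      sum_le_sum fun i _ => kap_deg _ (h2 i)
    rw [sum_add_distrib, sum_add_distrib] at h3
    simp only [sum_const, card_univ, Fintype.card_fin, smul_eq_mul] at h3
    obtain ⟨hcon1, hcon2⟩ := hcon
    change 2 * L < ∑ i, ((s i).1 : ℕ) at h1
    change 2 * L < ∑ i, ((s i).2.1 : ℕ) at hcon1
    change 2 * L < ∑ i, ((s i).2.2 : ℕ) at hcon2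
    omega
  have hdiag : ∀ y z : A, (if y = z then h y else 0) =
      ∑ s : Fin (3 * L) → Fin 3 × Fin 3 × Fin 3,
        c s * (mono (fun i => (s i).2.1) y.1 * mono (fun i => (s i).2.2) z.1) := by
    intro y z
    have h1 : ∑ x : A, h x * (if x.1 + y.1 + z.1 = 0 then (1 : ZMod 3) else 0) =
        if y = z then h y else 0 := by
      by_cases hyz : y = z
      · subst hyz
        rw [if_pos rfl, sum_eq_single y]
        · rw [if_pos, mul_one]
          funext i
          have : ∀ a : ZMod 3, a + a + a = 0 := by decide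
          exact this _
        · intro x _ hx
          rw [if_neg, mul_zero]
          intro h0
          exact hx (Subtype.ext (hA x.1 x.2 y.1 y.2 y.1 y.2 h0).1)
        · intro hh
          exact absurd (mem_univ _) hh
      · rw [if_neg hyz]
        refine sum_eq_zero fun x _ => ?_
        rw [if_neg, mul_zero]
        intro h0
        exact hyz (Subtype.ext (hA x.1 x.2 y.1 y.2 z.1 z.2 h0).2)
    rw [← h1]
    simp_rw [expand, mul_sum]
    rw [sum_comm]
    refine sum_congr rfl fun s _ => ?_
    change _ = (_ * _) * _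
    rw [mul_assoc, sum_mul, mul_sum]
    refine sum_congr rfl fun x _ => ?_
    ring
  -- the two matrices
  let Y : Matrix A Mo (ZMod 3) := fun y e => mono e.1 y.1
  let P : Matrix Mo A (ZMod 3) := fun e z =>
    ∑ s : Fin (3 * L) → Fin 3 × Fin 3 × Fin 3,
      if (fun i => (s i).2.1) = e.1 then c s * mono (fun i => (s i).2.2) z.1 else 0
  let Q : Matrix A Mo (ZMod 3) := fun y e =>
    ∑ s : Fin (3 * L) → Fin 3 × Fin 3 × Fin 3,
      if (fun i => (s i).2.1) ∉ Mo ∧ (fun i => (s i).2.2) = e.1 then
        c s * mono (fun i => (s i).2.1) y.1 else 0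
  have hmat : Matrix.diagonal h = Y * P + Q * Y.transpose := by
    ext y z
    rw [Matrix.diagonal_apply, hdiag, Matrix.add_apply, Matrix.mul_apply, Matrix.mul_apply]
    simp only [Y, P, Q, Matrix.transpose_apply, mul_sum, sum_mul]
    rw [sum_comm (s := univ) (t := univ), sum_comm (s := (univ : Finset Mo)) (t := univ), ← sum_add_distrib]
    refine sum_congr rfl fun s _ => ?_
    by_cases h1 : (fun i => (s i).2.1) ∈ Mo
    · rw [sum_eq_single (⟨_, h1⟩ : Mo), if_pos rfl]
      · rw [sum_eq_zero]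
        · ring
        · intro e _
          rw [if_neg (fun hh => hh.1 h1), zero_mul]
      · intro e _ he
        rw [if_neg, mul_zero]
        intro hh
        exact he (Subtype.ext hh.symm)
      · intro hh
        exact absurd (mem_univ _) hh
    · rw [sum_eq_zero (s := univ) (f := fun e : Mo => _ * _)]
      · rw [zero_add]
        by_cases h2 : (fun i => (s i).2.2) ∈ Mo
        · rw [sum_eq_single (⟨_, h2⟩ : Mo), if_pos ⟨h1, rfl⟩]
          · change _ = _ * mono (fun i => (s i).2.2) z.1
            ring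
          · intro e _ he
            rw [if_neg, zero_mul]
            intro hh
            exact he (Subtype.ext hh.2.symm)
          · intro hh
            exact absurd (mem_univ _) hh
        · have : c s = 0 := by
            by_contra hcs
            rcases hc s hcs with hh | hh
            · exact h1 hh
            · exact h2 hh
          rw [this, zero_mul]
          symm
          refine sum_eq_zero fun e _ => ?_
          split_ifs <;> simp
      · intro e _
        rw [if_neg, mul_zero]
        intro hh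
        exact h1 (hh ▸ e.2)
  have hrank : (Matrix.diagonal h).rank ≤ Mo.card + Mo.card := by
    rw [hmat, ← Matrix.fromCols_mul_fromRows]
    refine (Matrix.rank_mul_le_left _ _).trans ((Matrix.rank_le_card_width _).trans ?_)
    rw [Fintype.card_sum, Fintype.card_coe]
  rw [Matrix.rank_diagonal, Fintype.card_subtype] at hrank
  omega

/-- The cap set theorem. -/
theorem cap (L : ℕ) (A : Finset (Fin (3 * L) → ZMod 3))
    (hA : ∀ x ∈ A, ∀ y ∈ A, ∀ z ∈ A, x + y + z = 0 → x = y ∧ y = z) :
    A.card * 16 ^ L ≤ 3 * 343 ^ L := by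
  calc A.card * 16 ^ L ≤ 3 * (MO L).card * 16 ^ L :=
        Nat.mul_le_mul_right _ (cap_le L A hA)
    _ = 3 * ((MO L).card * 16 ^ L) := by ring
    _ ≤ 3 * 343 ^ L := Nat.mul_le_mul_left _ (card_mono L)

end Pool.Agent.Q250.VSR
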