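import Pool.Agent.Q250.VSR.Super

/-!
# The multicolour vector space Ramsey theorem over `F_3` with tower bounds of height `t`
-/

set_option autoImplicit false

namespace Pool.Agent.Q250.VSR

open Finset

/-- for every even colouring of `V` with `k` colours there is a `t`-dimensional subspace (the image of
`ψ`) whose nonzero vectors all have the same colour -/
def PP (t k : ℕ) (V : Type*) [AddCommGroup V] [Module (ZMod 3) V] : Prop :=
  ∀ χ : V → Fin k, (∀ x, χ (-x) = χ x) →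
    ∃ (ψ : (Fin t → ZMod 3) →ₗ[ZMod 3] V) (i : Fin k), ∀ u, u ≠ 0 → ψ u ≠ 0 ∧ χ (ψ u) = i

section

variable {V : Type*} [AddCommGroup V] [Module (ZMod 3) V]

/-- `u ↦ lc u v` as a linear map -/
def lcl {m : ℕ} (v : Fin m → V) : (Fin m → ZMod 3) →ₗ[ZMod 3] V where
  toFun u := lc u v
  map_add' u w := add_lc u w v
  map_smul' c u := by
    change lc (c • u) v = c • lc u v
    unfold lc
    rw [smul_sum]
    exact sum_congr rfl fun i _ => by rw [Pi.smul_apply, smul_eq_mul, mul_smul]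

/-- joining a vector and a linear map -/
def join {t : ℕ} (s : V) (ψ : (Fin t → ZMod 3) →ₗ[ZMod 3] V) : (Fin (t + 1) → ZMod 3) →ₗ[ZMod 3] V where
  toFun u := u 0 • s + ψ (fun i => u i.succ)
  map_add' u w := by
    change (u 0 + w 0) • s + ψ ((fun i => u i.succ) + fun i => w i.succ) = _
    rw [add_smul, map_add]
    abel
  map_smul' c u := by
    change (c * u 0) • s + ψ (c • fun i => u i.succ) = c • (u 0 • s + ψ (fun i => u i.succ))
    rw [mul_smul, map_smul, smul_add]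

lemma join_apply {t : ℕ} (s : V) (ψ : (Fin t → ZMod 3) →ₗ[ZMod 3] V) (u : Fin (t + 1) → ZMod 3) :
    join s ψ u = u 0 • s + ψ (fun i => u i.succ) := rfl

variable [Fintype V] [DecidableEq V]

/-- the state of the construction -/
def St {k : ℕ} (χ : V → Fin k) (m j E : ℕ) : Prop :=
  ∃ (B : Finset V) (I : Finset (Fin k)) (s : Fin k → V), I.card = j ∧
    (∀ i ∈ I, ∀ b ∈ B, s i + b ≠ 0 ∧ χ (s i + b) = i) ∧
    Fintype.card V ^ m ≤ (univ.filter fun v : Fin m → V => ∀ u, lc u v ∈ B).card * 3 ^ E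

/-- the unused colours are dense -/
lemma dense {t k m : ℕ} (ht : 1 ≤ t) (hm : PP t k (Fin m → ZMod 3)) (χ : V → Fin k)
    (hχ : ∀ x, χ (-x) = χ x)
    (hno : ¬ ∃ (ψ : (Fin (t + 1) → ZMod 3) →ₗ[ZMod 3] V) (i : Fin k), ∀ u, u ≠ 0 →
      ψ u ≠ 0 ∧ χ (ψ u) = i)
    (B : Finset V) (I : Finset (Fin k)) (s : Fin k → V) (E : ℕ)
    (hI : ∀ i ∈ I, ∀ b ∈ B, s i + b ≠ 0 ∧ χ (s i + b) = i)
    (hB : Fintype.card V ^ m ≤ (univ.filter fun v : Fin m → V => ∀ u, lc u v ∈ B).card * 3 ^ E) :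
    Fintype.card V ≤ (B.filter fun x => x = 0 ∨ χ x ∉ I).card * 3 ^ (E + m) := by
  classical
  by_contra hcon
  push Not at hcon
  obtain ⟨U, hU⟩ : ∃ U, U = B.filter fun x => x = 0 ∨ χ x ∉ I := ⟨_, rfl⟩
  obtain ⟨G, hG⟩ : ∃ G, G = univ.filter fun v : Fin m → V => ∀ u, lc u v ∈ B := ⟨_, rfl⟩
  obtain ⟨q, hq⟩ : ∃ q, q = Fintype.card V := ⟨_, rfl⟩
  have hq0 : 0 < q := by rw [hq]; exact Fintype.card_pos
  rw [← hU, ← hq] at hcon
  rw [← hG, ← hq] at hB
  -- a good map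
  have hgood : ∃ v ∈ G, ∀ u : Fin m → ZMod 3, u ≠ 0 → lc u v ∉ U := by
    by_contra hc
    push Not at hc
    have h1 : G ⊆ univ.biUnion fun u : Fin m → ZMod 3 =>
        if u ≠ 0 then (univ.filter fun v => lcHom (V := V) u v ∈ U) else ∅ := by
      intro v hv
      obtain ⟨u, hu, h2⟩ := hc v hv
      rw [mem_biUnion]
      refine ⟨u, mem_univ _, ?_⟩
      rw [if_pos hu, mem_filter]
      exact ⟨mem_univ _, h2⟩
    have h2 : G.card * q ≤ 3 ^ m * (U.card * q ^ m) := by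
      calc G.card * q ≤ (∑ u : Fin m → ZMod 3,
          (if u ≠ 0 then (univ.filter fun v => lcHom (V := V) u v ∈ U) else ∅).card) * q :=
            Nat.mul_le_mul_right _ ((card_le_card h1).trans card_biUnion_le)
        _ = ∑ u : Fin m → ZMod 3,
          (if u ≠ 0 then (univ.filter fun v => lcHom (V := V) u v ∈ U) else ∅).card * q := by
            rw [sum_mul]
        _ ≤ ∑ _u : Fin m → ZMod 3, U.card * q ^ m := by
            refine sum_le_sum fun u _ => ?_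
            split_ifs with hu
            · have h3 := card_preim (lcHom (V := V) u) (lcHom_surj u hu) U
              rw [Fintype.card_fun, Fintype.card_fin, ← hq] at h3
              exact h3.le
            · rw [card_empty, zero_mul]
              exact Nat.zero_le _
        _ = 3 ^ m * (U.card * q ^ m) := by
            rw [sum_const, card_univ, Fintype.card_fun, Fintype.card_fin, ZMod.card, smul_eq_mul]
    have h3 : q * q ^ m ≤ U.card * 3 ^ (E + m) * q ^ m := by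
      calc q * q ^ m ≤ q * (G.card * 3 ^ E) := Nat.mul_le_mul_left _ hB
        _ = G.card * q * 3 ^ E := by ring
        _ ≤ 3 ^ m * (U.card * q ^ m) * 3 ^ E := Nat.mul_le_mul_right _ h2
        _ = _ := by rw [pow_add]; ring
    have h4 := Nat.le_of_mul_le_mul_right h3 (by positivity)
    omega
  obtain ⟨v, hvG, hv⟩ := hgood
  rw [hG, mem_filter] at hvG
  have hvB : ∀ u : Fin m → ZMod 3, lc u v ∈ B := hvG.2
  have hv1 : ∀ u : Fin m → ZMod 3, u ≠ 0 → lc u v ≠ 0 ∧ χ (lc u v) ∈ I := by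
    intro u hu
    have h1 := hv u hu
    rw [hU, mem_filter] at h1
    refine ⟨fun h0 => h1 ⟨hvB u, Or.inl h0⟩, ?_⟩
    by_contra h0
    exact h1 ⟨hvB u, Or.inr h0⟩
  obtain ⟨ψ, i, hψ⟩ := hm (fun u => χ (lc u v)) (fun u => by rw [neg_lc, hχ])
  have hiI : i ∈ I := by
    have h1 : (Pi.single (⟨0, ht⟩ : Fin t) (1 : ZMod 3) : Fin t → ZMod 3) ≠ 0 := by
      rw [Ne, Pi.single_eq_zero_iff]
      decide
    obtain ⟨h2, h3⟩ := hψ _ h1
    rw [← h3]
    exact (hv1 _ h2).2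
  apply hno
  refine ⟨join (s i) ((lcl v).comp ψ), i, fun u hu => ?_⟩
  rw [join_apply]
  change u 0 • s i + lc (ψ fun j => u j.succ) v ≠ 0 ∧ χ (u 0 • s i + lc (ψ fun j => u j.succ) v) = i
  have h8 : u 0 = 0 ∨ u 0 = 1 ∨ u 0 = -1 := by
    generalize u 0 = x
    revert x
    decide
  rcases h8 with h8 | h8 | h8
  · have h9 : (fun j : Fin t => u j.succ) ≠ 0 := by
      intro h0
      apply hu
      funext j
      refine Fin.cases h8 (fun j => ?_) j
      exact congrFun h0 j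
    rw [h8, zero_smul, zero_add]
    obtain ⟨h10, h11⟩ := hψ _ h9
    exact ⟨(hv1 _ h10).1, h11⟩
  · rw [h8, one_smul]
    exact hI i hiI _ (hvB _)
  · have h9 : u 0 • s i + lc (ψ fun j => u j.succ) v = -(s i + lc (-(ψ fun j => u j.succ)) v) := by
      rw [h8, neg_lc, neg_smul, one_smul]
      abel
    rw [h9, hχ, neg_ne_zero]
    exact hI i hiI _ (hvB _)

lemma step {t k m : ℕ} (ht : 1 ≤ t) (hm : PP t k (Fin m → ZMod 3)) (χ : V → Fin k)
    (hχ : ∀ x, χ (-x) = χ x)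
    (hno : ¬ ∃ (ψ : (Fin (t + 1) → ZMod 3) →ₗ[ZMod 3] V) (i : Fin k), ∀ u, u ≠ 0 →
      ψ u ≠ 0 ∧ χ (ψ u) = i)
    (j E : ℕ) (hV : 3 ^ (E + m) < Fintype.card V) (h : St χ m j E) :
    St χ m (j + 1) (ex m (E + m + 1 + k)) := by
  classical
  obtain ⟨B, I, s, hj, hI, hB⟩ := h
  have h1 := dense ht hm χ hχ hno B I s E hI hB
  obtain ⟨U, hU⟩ : ∃ U, U = B.filter fun x => x = 0 ∨ χ x ∉ I := ⟨_, rfl⟩
  obtain ⟨q, hq⟩ : ∃ q, q = Fintype.card V := ⟨_, rfl⟩
  have hq0 : 0 < q := by rw [hq]; exact Fintype.card_pos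
  rw [← hU, ← hq] at h1
  rw [← hq] at hV
  have hU2 : 2 ≤ U.card := by
    by_contra hc
    have : U.card ≤ 1 := by omega
    have h2 : U.card * 3 ^ (E + m) ≤ 1 * 3 ^ (E + m) := Nat.mul_le_mul_right _ this
    omega
  -- the nonzero elements
  obtain ⟨W, hW⟩ : ∃ W, W = U.erase 0 := ⟨_, rfl⟩
  have hWU : U.card ≤ 2 * W.card := by
    have : U.card - 1 ≤ W.card := by rw [hW]; exact pred_card_le_card_erase
    omega
  have hWmem : ∀ x ∈ W, x ∈ B ∧ x ≠ 0 ∧ χ x ∉ I := by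
    intro x hx
    rw [hW, mem_erase, hU, mem_filter] at hx
    refine ⟨hx.2.1, hx.1, ?_⟩
    rcases hx.2.2 with h2 | h2
    · exact absurd h2 hx.1
    · exact h2
  -- a popular colour
  obtain ⟨i₀, hi₀⟩ : ∃ i₀ : Fin k, q ≤ (W.filter fun x => χ x = i₀).card * 3 ^ (E + m + 1 + k) := by
    by_contra hc
    push Not at hc
    have h2 : W.card = ∑ i : Fin k, (W.filter fun x => χ x = i).card :=
      card_eq_sum_card_fiberwise (fun _ _ => mem_univ _)
    have hk : 0 < k := by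
      rcases Nat.eq_zero_or_pos k with h0 | h0
      · subst h0
        exact (χ 0).elim0
      · exact h0
    have h3 : W.card * 3 ^ (E + m + 1 + k) < k * q := by
      rw [h2, sum_mul]
      calc ∑ i : Fin k, (W.filter fun x => χ x = i).card * 3 ^ (E + m + 1 + k) < ∑ _i : Fin k, q :=
            sum_lt_sum_of_nonempty ⟨⟨0, hk⟩, mem_univ _⟩ (fun i _ => hc i)
        _ = k * q := by rw [sum_const, card_univ, Fintype.card_fin, smul_eq_mul]
    have h4 : q ≤ 2 * W.card * 3 ^ (E + m) := h1.trans (Nat.mul_le_mul_right _ hWU)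
    have h5 : k < 3 ^ k := Nat.lt_pow_self (by norm_num)
    have h6 : k * q * 2 ≤ W.card * 3 ^ (E + m + 1 + k) * 2 := by
      calc k * q * 2 ≤ 3 ^ k * (2 * W.card * 3 ^ (E + m)) * 2 := by gcongr
        _ ≤ 3 ^ k * (2 * W.card * 3 ^ (E + m)) * 3 := Nat.mul_le_mul_left _ (by norm_num)
        _ = W.card * 3 ^ (E + m + 1 + k) * 2 := by
            rw [pow_add 3 (E + m + 1) k, pow_add 3 (E + m) 1]
            ring
    omega
  obtain ⟨C, hC⟩ : ∃ C, C = W.filter fun x => χ x = i₀ := ⟨_, rfl⟩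
  rw [← hC] at hi₀
  have hCmem : ∀ x ∈ C, x ∈ B ∧ x ≠ 0 ∧ χ x = i₀ := by
    intro x hx
    rw [hC, mem_filter] at hx
    exact ⟨(hWmem x hx.1).1, (hWmem x hx.1).2.1, hx.2⟩
  have hi₀I : i₀ ∉ I := by
    have : 0 < C.card := by
      rw [Nat.pos_iff_ne_zero]
      intro h0
      rw [h0, zero_mul] at hi₀
      omega
    obtain ⟨x, hx⟩ := card_pos.1 this
    rw [hC, mem_filter] at hx
    rw [← hx.2]
    exact (hWmem x hx.1).2.2
  -- the centre
  have h2 := supersat m C (E + m + 1 + k) (hq ▸ hi₀)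
  rw [← hq] at h2
  obtain ⟨a, ha⟩ : ∃ a : V, q ^ m ≤ (univ.filter fun v : Fin m → V => ∀ u, a + lc u v ∈ C).card *
      3 ^ ex m (E + m + 1 + k) := by
    by_contra hc
    push Not at hc
    have h3 : (QQ m C).card = ∑ a : V, (univ.filter fun v : Fin m → V => ∀ u, a + lc u v ∈ C).card := by
      rw [card_eq_sum_card_fiberwise (f := Prod.fst) (t := univ) (fun _ _ => mem_univ _)]
      refine sum_congr rfl fun a _ => ?_
      refine card_bij (fun p _ => p.2) ?_ ?_ ?_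
      · intro p hp
        rw [mem_filter, mem_QQ] at hp
        rw [mem_filter]
        refine ⟨mem_univ _, fun u => ?_⟩
        rw [← hp.2]
        exact hp.1 u
      · intro p hp p' hp' hpp
        rw [mem_filter] at hp hp'
        exact Prod.ext (hp.2.trans hp'.2.symm) hpp
      · intro v hv
        refine ⟨(a, v), ?_, rfl⟩
        rw [mem_filter, mem_QQ]
        exact ⟨(mem_filter.1 hv).2, rfl⟩
    rw [h3, sum_mul] at h2
    have h4 : ∑ a : V, (univ.filter fun v : Fin m → V => ∀ u, a + lc u v ∈ C).card *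
        3 ^ ex m (E + m + 1 + k) < ∑ _a : V, q ^ m :=
      sum_lt_sum_of_nonempty ⟨0, mem_univ _⟩ (fun a _ => hc a)
    rw [sum_const, card_univ, ← hq, smul_eq_mul] at h4
    have h5 : q ^ (m + 1) = q * q ^ m := by ring
    omega
  refine ⟨univ.filter fun d => a + d ∈ C, insert i₀ I, fun i => if i ∈ I then s i + a else a, ?_, ?_, ?_⟩
  · rw [card_insert_of_notMem hi₀I, hj]
  · intro i hi b hb
    rw [mem_filter] at hb
    have hb' := hCmem _ hb.2
    dsimp only
    rcases mem_insert.1 hi with h3 | h3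
    · rw [h3, if_neg hi₀I]
      exact hb'.2
    · rw [if_pos h3, add_assoc]
      exact hI i h3 _ hb'.1
  · rw [← hq]
    refine ha.trans (Nat.mul_le_mul_right _ (card_le_card ?_))
    intro v hv
    rw [mem_filter] at hv ⊢
    refine ⟨mem_univ _, fun u => ?_⟩
    rw [mem_filter]
    exact ⟨mem_univ _, hv.2 u⟩

/-- the exponents of the states -/
def EE (m k : ℕ) : ℕ → ℕ
  | 0 => 0
  | j + 1 => ex m (EE m k j + m + 1 + k)

lemma EE_le (m k : ℕ) : ∀ j, EE m k j + (m + k + 4) ≤ (2 * 64 ^ m) ^ j * (m + k + 4)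
  | 0 => by simp [EE]
  | j + 1 => by
    have h1 := EE_le m k j
    have h2 := ex_le m (EE m k j + m + 1 + k)
    have h3 : 1 ≤ 64 ^ m := Nat.one_le_pow _ _ (by norm_num)
    rw [EE]
    calc ex m (EE m k j + m + 1 + k) + (m + k + 4)
        ≤ 64 ^ m * (EE m k j + m + 1 + k + 3) + (m + k + 4) := by omega
      _ = 64 ^ m * (EE m k j + (m + k + 4)) + 1 * (m + k + 4) := by ring
      _ ≤ 64 ^ m * (EE m k j + (m + k + 4)) + 64 ^ m * (EE m k j + (m + k + 4)) := by
          refine Nat.add_le_add_left ?_ _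
          exact Nat.mul_le_mul h3 (Nat.le_add_left _ _)
      _ = (2 * 64 ^ m) * (EE m k j + (m + k + 4)) := by ring
      _ ≤ (2 * 64 ^ m) * ((2 * 64 ^ m) ^ j * (m + k + 4)) := Nat.mul_le_mul_left _ h1
      _ = _ := by ring

lemma EE_lt {m k n : ℕ} (hm : 1 ≤ m) (hk : 1 ≤ k) (hn : 2 ^ (11 * k * m) ≤ n) (j : ℕ) (hj : j ≤ k) :
    EE m k j + m < n := by
  have h1 := EE_le m k j
  have h2 : (2 * 64 ^ m) ^ j ≤ (2 * 64 ^ m) ^ k := Nat.pow_le_pow_right (by positivity) hj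
  have h3 : (2 * 64 ^ m) ^ k = 2 ^ ((6 * m + 1) * k) := by
    rw [show (64 : ℕ) = 2 ^ 6 by norm_num, ← pow_mul, ← pow_succ', ← pow_mul]
  have h4 : m + k + 4 ≤ 2 ^ (m + k + 2) := by
    have : m + k + 1 ≤ 2 ^ (m + k) := Nat.lt_pow_self (by norm_num)
    rw [pow_add]
    omega
  have h5 : (6 * m + 1) * k + (m + k + 2) ≤ 11 * k * m := by nlinarith
  have h6 : (2 * 64 ^ m) ^ j * (m + k + 4) ≤ 2 ^ (11 * k * m) := by
    calc (2 * 64 ^ m) ^ j * (m + k + 4) ≤ 2 ^ ((6 * m + 1) * k) * 2 ^ (m + k + 2) := by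
          rw [← h3]
          exact Nat.mul_le_mul h2 h4
      _ = 2 ^ ((6 * m + 1) * k + (m + k + 2)) := by rw [pow_add 2 ((6 * m + 1) * k) (m + k + 2)]
      _ ≤ _ := Nat.pow_le_pow_right (by norm_num) h5
  omega

end

theorem PP_succ {t k m n : ℕ} (ht : 1 ≤ t) (hk : 1 ≤ k) (hm1 : 1 ≤ m)
    (hm : PP t k (Fin m → ZMod 3)) (hn : 2 ^ (11 * k * m) ≤ n) : PP (t + 1) k (Fin n → ZMod 3) := by
  classical
  intro χ hχ
  by_contra hno
  have hV : Fintype.card (Fin n → ZMod 3) = 3 ^ n := by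
    rw [Fintype.card_fun, Fintype.card_fin, ZMod.card]
  have h0 : St χ m 0 (EE m k 0) := by
    refine ⟨univ, ∅, fun _ => 0, rfl, fun i hi => absurd hi (notMem_empty i), ?_⟩
    rw [EE, pow_zero, mul_one]
    have : (univ.filter fun v : Fin m → (Fin n → ZMod 3) => ∀ u : Fin m → ZMod 3,
        lc u v ∈ (univ : Finset (Fin n → ZMod 3))) = univ := by
      ext v; simp
    rw [this, card_univ]
    simp
  have h1 : ∀ j, j ≤ k + 1 → St χ m j (EE m k j) := by
    intro j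
    induction j with
    | zero => exact fun _ => h0
    | succ j ih =>
      intro hj
      refine step ht hm χ hχ hno j (EE m k j) ?_ (ih (by omega))
      rw [hV]
      exact Nat.pow_lt_pow_right (by norm_num) (EE_lt hm1 hk hn j (by omega))
  obtain ⟨B, I, s, hI, -⟩ := h1 (k + 1) le_rfl
  have h2 := card_le_univ I
  rw [Fintype.card_fin] at h2
  omega

/-- the bounds: `bd k t` is a bound for the dimension `t + 1` -/
def bd (k : ℕ) : ℕ → ℕ
  | 0 => 1
  | t + 1 => 2 ^ (11 * k * bd k t)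

lemma bd_pos (k t : ℕ) : 1 ≤ bd k t := by
  cases t with
  | zero => exact le_rfl
  | succ t => exact Nat.one_le_two_pow

theorem PP_one (k : ℕ) : PP 1 k (Fin 1 → ZMod 3) := by
  intro χ hχ
  refine ⟨LinearMap.id, χ (fun _ => 1), fun u hu => ⟨hu, ?_⟩⟩
  change χ u = _
  have h1 : ∀ u : Fin 1 → ZMod 3, u ≠ 0 → u = (fun _ => 1) ∨ u = -(fun _ => 1) := by decide
  rcases h1 u hu with h2 | h2
  · rw [h2]
  · rw [h2, hχ]

theorem PP_bd (k : ℕ) (hk : 1 ≤ k) : ∀ t, PP (t + 1) k (Fin (bd k t) → ZMod 3)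
  | 0 => PP_one k
  | t + 1 => PP_succ (Nat.le_add_left 1 t) hk (bd_pos k t) (PP_bd k hk t) le_rfl

/-- towers: `twr i x` is a tower of height `i` -/
def twr : ℕ → ℕ → ℕ
  | 0, x => x
  | 1, x => x
  | i + 2, x => 2 ^ twr (i + 1) x

lemma twr_mono (i : ℕ) {x y : ℕ} (h : x ≤ y) : twr i x ≤ twr i y := by
  induction i using Nat.strong_induction_on with
  | _ i ih =>
    match i with
    | 0 => exact h
    | 1 => exact h
    | i + 2 => exact Nat.pow_le_pow_right (by norm_num) (ih (i + 1) (by omega))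

lemma mul_twr (c y : ℕ) : ∀ j, c * twr (j + 2) y ≤ twr (j + 2) (y + c)
  | 0 => by
    change c * 2 ^ y ≤ 2 ^ (y + c)
    rw [pow_add, mul_comm]
    exact Nat.mul_le_mul_left _ (Nat.lt_pow_self (by norm_num)).le
  | j + 1 => by
    have h1 := mul_twr c y j
    change c * 2 ^ twr (j + 2) y ≤ 2 ^ twr (j + 2) (y + c)
    rcases Nat.eq_zero_or_pos c with hc | hc
    · subst hc; simp
    have hX : 1 ≤ twr (j + 2) y := Nat.one_le_two_pow
    generalize twr (j + 2) y = X at h1 hX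
    refine le_trans ?_ (Nat.pow_le_pow_right (by norm_num) h1)
    obtain ⟨d, rfl⟩ := Nat.exists_eq_add_of_le' hc
    have h2 : d + 1 ≤ 2 ^ d := Nat.lt_pow_self (by norm_num)
    calc (d + 1) * 2 ^ X ≤ 2 ^ d * 2 ^ X := Nat.mul_le_mul_right _ h2
      _ = 2 ^ (d + X) := by rw [pow_add]
      _ ≤ 2 ^ ((d + 1) * X) := by
          apply Nat.pow_le_pow_right (by norm_num)
          nlinarith

lemma bd_le (k : ℕ) : ∀ t, bd k (t + 1) ≤ twr (t + 2) (11 * (t + 1) * k)
  | 0 => by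
    change 2 ^ (11 * k * 1) ≤ 2 ^ (11 * (0 + 1) * k)
    apply Nat.pow_le_pow_right (by norm_num)
    omega
  | t + 1 => by
    have h1 := bd_le k t
    change 2 ^ (11 * k * bd k (t + 1)) ≤ 2 ^ twr (t + 2) (11 * (t + 1 + 1) * k)
    apply Nat.pow_le_pow_right (by norm_num)
    refine (Nat.mul_le_mul_left _ h1).trans ((mul_twr _ _ _).trans (twr_mono _ ?_))
    ring_nf
    exact le_rfl

lemma twr_twr (a x : ℕ) : ∀ b, twr (b + 1) (twr (a + 1) x) = twr (a + b + 1) x
  | 0 => rfl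
  | b + 1 => by
    change 2 ^ twr (b + 1) (twr (a + 1) x) = 2 ^ twr (a + b + 1) x
    rw [twr_twr a x b]

lemma le_twr (x : ℕ) : ∀ j, x * 2 ^ j ≤ twr (j + 1) x
  | 0 => by change x * 1 ≤ x; omega
  | j + 1 => by
    have h1 := le_twr x j
    change x * 2 ^ (j + 1) ≤ 2 ^ twr (j + 1) x
    rcases Nat.eq_zero_or_pos x with hx | hx
    · subst hx; simp
    have h2 : x * 2 ^ (j + 1) = 2 * (x * 2 ^ j) := by ring
    have h3 : 1 ≤ x * 2 ^ j := Nat.mul_pos hx (by positivity)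
    rw [h2]
    refine le_trans ?_ (Nat.pow_le_pow_right (by norm_num) h1)
    generalize x * 2 ^ j = y at h3
    obtain ⟨d, rfl⟩ := Nat.exists_eq_add_of_le' h3
    have h4 : d + 1 ≤ 2 ^ d := Nat.lt_pow_self (by norm_num)
    rw [pow_succ]
    omega

/-- an absolute tower of height `2t + 4` -/
lemma twr_abs (t k : ℕ) : twr (t + 1) (11 * (t + 1) * k) ≤ twr (2 * t + 6) k := by
  have h1 : 11 * (t + 1) * k ≤ twr (t + 4 + 1) k := by
    refine le_trans ?_ (le_twr k (t + 4))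
    have h2 : t + 1 ≤ 2 ^ t := Nat.lt_pow_self (by norm_num)
    calc 11 * (t + 1) * k ≤ 16 * 2 ^ t * k := by gcongr; norm_num
      _ = k * 2 ^ (t + 4) := by rw [pow_add]; ring
  refine (twr_mono _ h1).trans ?_
  rw [twr_twr]
  have : t + 4 + t + 1 = 2 * t + 5 := by ring
  rw [this]
  -- twr (2t+5) k ≤ twr (2t+6) k
  change twr (2 * t + 4 + 1) k ≤ 2 ^ twr (2 * t + 4 + 1) k
  exact (Nat.lt_pow_self (by norm_num)).le

end Pool.Agent.Q250.VSR
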