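import Pool.Agent.Q250.VSR.Cap

/-!
# Supersaturation: a set of density `3^(-s)` contains many affine subspaces
-/

set_option autoImplicit false

namespace Pool.Agent.Q250.VSR

open Finset

/-- preimages under surjective homomorphisms -/
lemma card_preim {G H : Type*} [AddCommGroup G] [Fintype G] [AddCommGroup H] [Fintype H]
    [DecidableEq H] (f : G →+ H) (hf : Function.Surjective f) (S : Finset H) :
    (univ.filter fun g => f g ∈ S).card * Fintype.card H = S.card * Fintype.card G := by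
  classical
  have hfib : ∀ h : H, (univ.filter fun g => f g = h).card = (univ.filter fun g => f g = 0).card :=
    fun h => AddMonoidHom.card_fiber_eq_of_mem_range f (hf h) (hf 0)
  have h1 : ∀ S : Finset H, (univ.filter fun g => f g ∈ S).card =
      S.card * (univ.filter fun g => f g = 0).card := by
    intro S
    rw [card_eq_sum_card_fiberwise (s := univ.filter fun g => f g ∈ S) (f := f) (t := S)
      (fun g hg => (mem_filter.1 (mem_coe.1 hg)).2)]
    rw [← smul_eq_mul, ← sum_const]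
    refine sum_congr rfl fun h hh => ?_
    rw [← hfib h]
    congr 1
    ext g
    simp only [mem_filter, mem_univ, true_and]
    exact ⟨fun h2 => h2.2, fun h2 => ⟨h2 ▸ hh, h2⟩⟩
  have h2 := h1 univ
  rw [h1 S]
  have h3 : (univ.filter fun g => f g ∈ (univ : Finset H)) = univ := by
    ext g; simp
  rw [h3, card_univ, card_univ] at h2
  rw [h2]
  ring

section

variable {V : Type*} [AddCommGroup V] [Module (ZMod 3) V] [Fintype V] [DecidableEq V]

/-- linear combinations -/
def lc {m : ℕ} (u : Fin m → ZMod 3) (v : Fin m → V) : V := ∑ i, u i • v i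

omit [Fintype V] [DecidableEq V] in
lemma lc_add {m : ℕ} (u : Fin m → ZMod 3) (v w : Fin m → V) : lc u (v + w) = lc u v + lc u w := by
  unfold lc
  rw [← sum_add_distrib]
  exact sum_congr rfl fun i _ => by rw [Pi.add_apply, smul_add]

omit [Fintype V] [DecidableEq V] in
lemma lc_zero {m : ℕ} (u : Fin m → ZMod 3) : lc u (0 : Fin m → V) = 0 := by
  unfold lc
  exact sum_eq_zero fun i _ => by rw [Pi.zero_apply, smul_zero]

omit [Fintype V] [DecidableEq V] in
lemma add_lc {m : ℕ} (u w : Fin m → ZMod 3) (v : Fin m → V) : lc (u + w) v = lc u v + lc w v := by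
  unfold lc
  rw [← sum_add_distrib]
  exact sum_congr rfl fun i _ => by rw [Pi.add_apply, add_smul]

omit [Fintype V] [DecidableEq V] in
lemma neg_lc {m : ℕ} (u : Fin m → ZMod 3) (v : Fin m → V) : lc (-u) v = -lc u v := by
  unfold lc
  rw [← sum_neg_distrib]
  exact sum_congr rfl fun i _ => by rw [Pi.neg_apply, neg_smul]

omit [Fintype V] [DecidableEq V] in
lemma sub_lc {m : ℕ} (u w : Fin m → ZMod 3) (v : Fin m → V) : lc (u - w) v = lc u v - lc w v := by
  rw [sub_eq_add_neg, add_lc, neg_lc, sub_eq_add_neg]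

omit [Fintype V] [DecidableEq V] in
lemma zero_lc {m : ℕ} (v : Fin m → V) : lc 0 v = 0 := by
  unfold lc
  exact sum_eq_zero fun i _ => by rw [Pi.zero_apply, zero_smul]

omit [Fintype V] [DecidableEq V] in
lemma lc_single {m : ℕ} (w : Fin m → ZMod 3) (i : Fin m) (hi : w i ≠ 0) (d : V) :
    lc w (Pi.single i ((w i)⁻¹ • d)) = d := by
  have : Fact (Nat.Prime 3) := ⟨by norm_num⟩
  unfold lc
  rw [sum_eq_single i]
  · rw [Pi.single_eq_same, smul_smul, mul_inv_cancel₀ hi, one_smul]
  · intro j _ hj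
    rw [Pi.single_eq_of_ne hj, smul_zero]
  · intro h
    exact absurd (mem_univ _) h

/-- the homomorphism `v ↦ lc u v` -/
def lcHom {m : ℕ} (u : Fin m → ZMod 3) : (Fin m → V) →+ V where
  toFun := lc u
  map_zero' := lc_zero u
  map_add' := lc_add u

omit [Fintype V] [DecidableEq V] in
lemma lcHom_surj {m : ℕ} (u : Fin m → ZMod 3) (hu : u ≠ 0) :
    Function.Surjective (lcHom (V := V) u) := by
  obtain ⟨i, hi⟩ := Function.ne_iff.1 hu
  exact fun d => ⟨_, lc_single u i hi d⟩

/-- the affine map, evaluated at `u` -/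
def afHom {m : ℕ} (u : Fin m → ZMod 3) : V × (Fin m → V) →+ V where
  toFun ψ := ψ.1 + lc u ψ.2
  map_zero' := by
    change (0 : V) + lc u 0 = 0
    rw [lc_zero, add_zero]
  map_add' ψ ψ' := by
    change (ψ.1 + ψ'.1) + lc u (ψ.2 + ψ'.2) = _
    rw [lc_add]
    abel

omit [Fintype V] [DecidableEq V] in
lemma afHom_surj {m : ℕ} (u : Fin m → ZMod 3) : Function.Surjective (afHom (V := V) u) := by
  intro a
  refine ⟨(a, 0), ?_⟩
  change a + lc u 0 = a
  rw [lc_zero, add_zero]

/-- two values -/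
def prHom {m : ℕ} (u w : Fin m → ZMod 3) : V × (Fin m → V) →+ V × V where
  toFun ψ := (ψ.1 + lc u ψ.2, lc w ψ.2)
  map_zero' := by
    change ((0 : V) + lc u 0, lc w 0) = 0
    rw [lc_zero, lc_zero, add_zero]
    rfl
  map_add' ψ ψ' := by
    change ((ψ.1 + ψ'.1) + lc u (ψ.2 + ψ'.2), lc w (ψ.2 + ψ'.2)) = _
    rw [lc_add, lc_add]
    ext
    · change _ = (ψ.1 + lc u ψ.2) + (ψ'.1 + lc u ψ'.2)
      exact add_add_add_comm _ _ _ _
    · rfl

omit [Fintype V] [DecidableEq V] in
lemma prHom_surj {m : ℕ} (u w : Fin m → ZMod 3) (hw : w ≠ 0) :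
    Function.Surjective (prHom (V := V) u w) := by
  obtain ⟨i, hi⟩ := Function.ne_iff.1 hw
  intro p
  refine ⟨(p.1 - lc u (Pi.single i ((w i)⁻¹ • p.2)), Pi.single i ((w i)⁻¹ • p.2)), ?_⟩
  change (p.1 - lc u (Pi.single i ((w i)⁻¹ • p.2)) + lc u (Pi.single i ((w i)⁻¹ • p.2)),
    lc w (Pi.single i ((w i)⁻¹ • p.2))) = p
  rw [lc_single w i hi, sub_add_cancel]

/-- the pairs `(a, d)` with `a`, `a + d`, `a - d` in `C` -/
def XX (C : Finset V) : Finset (V × V) :=
  univ.filter fun p => p.1 ∈ C ∧ p.1 + p.2 ∈ C ∧ p.1 - p.2 ∈ C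

lemma mem_XX (C : Finset V) (a d : V) : (a, d) ∈ XX C ↔ a ∈ C ∧ a + d ∈ C ∧ a - d ∈ C := by
  unfold XX
  rw [mem_filter]
  exact ⟨fun h => h.2, fun h => ⟨mem_univ _, h⟩⟩

/-- the preimage of `C` under an affine map -/
def pull {m : ℕ} (C : Finset V) (ψ : V × (Fin m → V)) : Finset (Fin m → ZMod 3) :=
  univ.filter fun u => afHom u ψ ∈ C

lemma exists_ap (L : ℕ) (A : Finset (Fin (3 * L) → ZMod 3)) (hA : 3 * 343 ^ L < A.card * 16 ^ L) :
    ∃ u w : Fin (3 * L) → ZMod 3, w ≠ 0 ∧ u ∈ A ∧ u + w ∈ A ∧ u - w ∈ A := by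
  by_contra hcon
  push Not at hcon
  refine absurd (cap L A fun x hx y hy z hz h0 => ?_) (not_le.2 hA)
  have h3 : ∀ a b c : ZMod 3, a + b + c = 0 → a - (b - a) = c := by decide
  have hz' : x - (y - x) = z := by
    funext i
    exact h3 _ _ _ (congrFun h0 i)
  have hy' : x + (y - x) = y := by abel
  by_cases hw : y - x = 0
  · have hxy : x = y := (sub_eq_zero.1 hw).symm
    refine ⟨hxy, ?_⟩
    rw [← hz', hw, sub_zero]
    exact hxy.symm
  · exact absurd (hz'.symm ▸ hz) (hcon x (y - x) hw hx (hy'.symm ▸ hy))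

lemma super (C : Finset V) (s : ℕ) (hC : Fintype.card V ≤ C.card * 3 ^ s) :
    Fintype.card V ^ 2 ≤ (XX C).card * 3 ^ (31 * s + 61) := by
  classical
  obtain ⟨L, hL⟩ : ∃ L, L = 5 * (s + 2) := ⟨_, rfl⟩
  obtain ⟨q, hq⟩ : ∃ q, q = Fintype.card V := ⟨_, rfl⟩
  have hq0 : 0 < q := by rw [hq]; exact Fintype.card_pos
  rw [← hq] at hC ⊢
  have hcardψ : Fintype.card (V × (Fin (3 * L) → V)) = q ^ (3 * L + 1) := by
    rw [Fintype.card_prod, Fintype.card_fun, Fintype.card_fin, ← hq]
    ring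
  have hcardu : Fintype.card (Fin (3 * L) → ZMod 3) = 27 ^ L := by
    rw [Fintype.card_fun, Fintype.card_fin, ZMod.card, pow_mul]
    norm_num
  -- (1) the average
  have h1 : ∑ ψ : V × (Fin (3 * L) → V), (pull C ψ).card = 27 ^ L * (C.card * q ^ (3 * L)) := by
    have : ∀ ψ : V × (Fin (3 * L) → V), (pull C ψ).card =
        ∑ u : Fin (3 * L) → ZMod 3, if afHom u ψ ∈ C then 1 else 0 := by
      intro ψ
      unfold pull
      rw [card_filter]
    simp_rw [this]
    rw [sum_comm]
    have h2 : ∀ u : Fin (3 * L) → ZMod 3, (∑ ψ : V × (Fin (3 * L) → V),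
        if afHom u ψ ∈ C then 1 else 0) = C.card * q ^ (3 * L) := by
      intro u
      rw [← card_filter]
      have h3 := card_preim (afHom (V := V) u) (afHom_surj u) C
      rw [hcardψ, ← hq, pow_succ, ← mul_assoc] at h3
      exact Nat.eq_of_mul_eq_mul_right hq0 h3
    simp_rw [h2]
    rw [sum_const, card_univ, hcardu, smul_eq_mul]
  -- (2) the good maps
  obtain ⟨G, hG⟩ : ∃ G : Finset (V × (Fin (3 * L) → V)), G = univ.filter fun ψ =>
      3 * 343 ^ L < (pull C ψ).card * 16 ^ L := ⟨_, rfl⟩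
  have h2 : 432 ^ L * (C.card * q ^ (3 * L)) ≤ G.card * 432 ^ L + q ^ (3 * L + 1) * (3 * 343 ^ L) := by
    have h3 : ∑ ψ : V × (Fin (3 * L) → V), (pull C ψ).card * 16 ^ L ≤
        ∑ ψ : V × (Fin (3 * L) → V), ((if ψ ∈ G then 432 ^ L else 0) + 3 * 343 ^ L) := by
      refine sum_le_sum fun ψ _ => ?_
      by_cases hψ : ψ ∈ G
      · rw [if_pos hψ]
        have : (pull C ψ).card ≤ 27 ^ L := by
          rw [← hcardu]
          exact card_le_univ _
        calc (pull C ψ).card * 16 ^ L ≤ 27 ^ L * 16 ^ L := Nat.mul_le_mul_right _ this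
          _ = 432 ^ L := by rw [← mul_pow]; norm_num
          _ ≤ _ := Nat.le_add_right _ _
      · rw [if_neg hψ, zero_add]
        by_contra hc
        exact hψ (by rw [hG, mem_filter]; exact ⟨mem_univ _, not_le.1 hc⟩)
    rw [← sum_mul, h1, sum_add_distrib, ← sum_filter, sum_const, sum_const, card_univ, hcardψ,
      smul_eq_mul, smul_eq_mul] at h3
    have h4 : (univ.filter fun ψ => ψ ∈ G) = G := by ext; simp
    rw [h4] at h3
    calc 432 ^ L * (C.card * q ^ (3 * L)) = 27 ^ L * (C.card * q ^ (3 * L)) * 16 ^ L := by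
          rw [show (432 : ℕ) = 27 * 16 by norm_num, mul_pow]
          ring
      _ ≤ _ := h3
  -- (3) every good map gives a progression
  have h3 : G.card * q ^ 2 ≤ 9 ^ (3 * L) * ((XX C).card * q ^ (3 * L + 1)) := by
    have h4 : G.card ≤ ∑ u : Fin (3 * L) → ZMod 3, ∑ w : Fin (3 * L) → ZMod 3,
        if w ≠ 0 then (univ.filter fun ψ => prHom u w ψ ∈ XX C).card else 0 := by
      have h5 : G ⊆ univ.biUnion fun u : Fin (3 * L) → ZMod 3 => univ.biUnion fun w : Fin (3 * L) → ZMod 3 =>
          if w ≠ 0 then (univ.filter fun ψ => prHom u w ψ ∈ XX C) else ∅ := by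
        intro ψ hψ
        rw [hG, mem_filter] at hψ
        obtain ⟨u, w, hw, h6, h7, h8⟩ := exists_ap L _ hψ.2
        rw [mem_biUnion]
        refine ⟨u, mem_univ _, ?_⟩
        rw [mem_biUnion]
        refine ⟨w, mem_univ _, ?_⟩
        rw [if_pos hw, mem_filter]
        refine ⟨mem_univ _, ?_⟩
        change (ψ.1 + lc u ψ.2, lc w ψ.2) ∈ XX C
        rw [mem_XX]
        unfold pull at h6 h7 h8
        rw [mem_filter] at h6 h7 h8
        refine ⟨h6.2, ?_, ?_⟩
        · have h9 : ψ.1 + lc (u + w) ψ.2 ∈ C := h7.2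
          rwa [add_lc, ← add_assoc] at h9
        · have h9 : ψ.1 + lc (u - w) ψ.2 ∈ C := h8.2
          rwa [sub_lc, ← add_sub_assoc] at h9
      refine (card_le_card h5).trans (card_biUnion_le.trans (sum_le_sum fun u _ => ?_))
      refine card_biUnion_le.trans (sum_le_sum fun w _ => ?_)
      split_ifs <;> simp
    calc G.card * q ^ 2 ≤ (∑ u : Fin (3 * L) → ZMod 3, ∑ w : Fin (3 * L) → ZMod 3,
        if w ≠ 0 then (univ.filter fun ψ => prHom u w ψ ∈ XX C).card else 0) * q ^ 2 :=
          Nat.mul_le_mul_right _ h4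
      _ = ∑ u : Fin (3 * L) → ZMod 3, ∑ w : Fin (3 * L) → ZMod 3,
          (if w ≠ 0 then (univ.filter fun ψ => prHom u w ψ ∈ XX C).card else 0) * q ^ 2 := by
          rw [sum_mul]
          refine sum_congr rfl fun u _ => ?_
          rw [sum_mul]
      _ ≤ ∑ _u : Fin (3 * L) → ZMod 3, ∑ _w : Fin (3 * L) → ZMod 3,
          ((XX C).card * q ^ (3 * L + 1)) := by
          refine sum_le_sum fun u _ => sum_le_sum fun w _ => ?_
          split_ifs with hw
          · have h6 := card_preim (prHom (V := V) u w) (prHom_surj u w hw) (XX C)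
            rw [hcardψ, Fintype.card_prod, ← hq, ← sq] at h6
            exact h6.le
          · rw [zero_mul]
            exact Nat.zero_le _
      _ = _ := by
          rw [sum_const, sum_const, card_univ, hcardu, smul_eq_mul, smul_eq_mul, ← mul_assoc,
            ← mul_pow, pow_mul]
          norm_num
  -- (4)
  have h4 : C.card * q ^ (3 * L) ≤ 2 * G.card := by
    have h5 : 2 * (3 * 343 ^ L * 3 ^ s) ≤ 432 ^ L := by
      rw [hL, pow_mul, pow_mul]
      have h6 : 3 * 343 ^ 5 ≤ 432 ^ 5 := by norm_num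
      calc 2 * (3 * (343 ^ 5) ^ (s + 2) * 3 ^ s) ≤ 3 ^ (s + 2) * (343 ^ 5) ^ (s + 2) := by
            rw [pow_add 3 s 2]
            nlinarith [Nat.zero_le ((343 ^ 5) ^ (s + 2) * 3 ^ s)]
        _ = (3 * 343 ^ 5) ^ (s + 2) := by rw [mul_pow]
        _ ≤ (432 ^ 5) ^ (s + 2) := Nat.pow_le_pow_left h6 _
    have h7 : q ^ (3 * L + 1) ≤ C.card * 3 ^ s * q ^ (3 * L) := by
      rw [pow_succ, mul_comm]
      exact Nat.mul_le_mul_right _ hC
    have h8 : 0 < 432 ^ L := by positivity
    have h9 : 2 * (q ^ (3 * L + 1) * (3 * 343 ^ L)) ≤ 432 ^ L * (C.card * q ^ (3 * L)) := by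
      calc 2 * (q ^ (3 * L + 1) * (3 * 343 ^ L)) ≤ 2 * (C.card * 3 ^ s * q ^ (3 * L) * (3 * 343 ^ L)) :=
            Nat.mul_le_mul_left _ (Nat.mul_le_mul_right _ h7)
        _ = 2 * (3 * 343 ^ L * 3 ^ s) * (C.card * q ^ (3 * L)) := by ring
        _ ≤ _ := Nat.mul_le_mul_right _ h5
    have h10 : 432 ^ L * (C.card * q ^ (3 * L)) ≤ 432 ^ L * (2 * G.card) := by
      have : 432 ^ L * (2 * G.card) = 2 * (G.card * 432 ^ L) := by ring
      rw [this]
      omega
    exact Nat.le_of_mul_le_mul_left h10 h8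
  -- (5)
  have h5 : C.card * q * q ^ (3 * L + 1) ≤ 2 * 9 ^ (3 * L) * (XX C).card * q ^ (3 * L + 1) := by
    calc C.card * q * q ^ (3 * L + 1) = (C.card * q ^ (3 * L)) * q ^ 2 := by ring
      _ ≤ 2 * G.card * q ^ 2 := Nat.mul_le_mul_right _ h4
      _ = 2 * (G.card * q ^ 2) := by ring
      _ ≤ 2 * (9 ^ (3 * L) * ((XX C).card * q ^ (3 * L + 1))) := Nat.mul_le_mul_left _ h3
      _ = _ := by ring
  have h6 : C.card * q ≤ 2 * 9 ^ (3 * L) * (XX C).card :=
    Nat.le_of_mul_le_mul_right h5 (by positivity)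
  calc q ^ 2 = q * q := sq q
    _ ≤ C.card * 3 ^ s * q := Nat.mul_le_mul_right _ hC
    _ = 3 ^ s * (C.card * q) := by ring
    _ ≤ 3 ^ s * (2 * 9 ^ (3 * L) * (XX C).card) := Nat.mul_le_mul_left _ h6
    _ ≤ 3 ^ s * (3 * 9 ^ (3 * L) * (XX C).card) := by gcongr; norm_num
    _ = (XX C).card * (3 ^ s * (3 * 9 ^ (3 * L))) := by ring
    _ = (XX C).card * 3 ^ (31 * s + 61) := by
        rw [show (9 : ℕ) = 3 ^ 2 by norm_num, ← pow_mul, ← pow_succ', ← pow_add, hL]
        congr 2
        ring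

/-- the affine maps with image in `C` -/
def QQ (m : ℕ) (C : Finset V) : Finset (V × (Fin m → V)) :=
  univ.filter fun ψ => ∀ u : Fin m → ZMod 3, ψ.1 + lc u ψ.2 ∈ C

lemma mem_QQ {m : ℕ} (C : Finset V) (ψ : V × (Fin m → V)) :
    ψ ∈ QQ m C ↔ ∀ u : Fin m → ZMod 3, ψ.1 + lc u ψ.2 ∈ C := by
  unfold QQ
  rw [mem_filter]
  exact ⟨fun h => h.2, fun h => ⟨mem_univ _, h⟩⟩

/-- `a` with `a`, `a + w`, `a - w` in `C` -/
def CC (C : Finset V) (w : V) : Finset V := C.filter fun a => a + w ∈ C ∧ a - w ∈ C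

/-- the exponents -/
def ex : ℕ → ℕ → ℕ
  | 0, s => s
  | m + 1, s => (31 * s + 62) + ex m (31 * s + 62)

lemma ex_le (m s : ℕ) : ex m s + 3 ≤ 64 ^ m * (s + 3) := by
  induction m generalizing s with
  | zero => simp [ex]
  | succ m ih =>
    have h := ih (31 * s + 62)
    rw [ex, pow_succ]
    have h1 : 1 ≤ 64 ^ m := Nat.one_le_pow _ _ (by norm_num)
    calc 31 * s + 62 + ex m (31 * s + 62) + 3 ≤ 31 * s + 62 + 64 ^ m * (31 * s + 62 + 3) := by omega
      _ ≤ 64 ^ m * (31 * s + 62) + 64 ^ m * (31 * s + 62 + 3) := by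
          refine Nat.add_le_add_right ?_ _
          exact Nat.le_mul_of_pos_left _ h1
      _ = 64 ^ m * (62 * s + 127) := by ring
      _ ≤ 64 ^ m * (64 * (s + 3)) := Nat.mul_le_mul_left _ (by omega)
      _ = 64 ^ m * 64 * (s + 3) := by ring

theorem supersat (m : ℕ) : ∀ (C : Finset V) (s : ℕ), Fintype.card V ≤ C.card * 3 ^ s →
    Fintype.card V ^ (m + 1) ≤ (QQ m C).card * 3 ^ ex m s := by
  classical
  obtain ⟨q, hq⟩ : ∃ q, q = Fintype.card V := ⟨_, rfl⟩
  have hq0 : 0 < q := by rw [hq]; exact Fintype.card_pos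
  rw [← hq]
  induction m with
  | zero =>
    intro C s hC
    rw [ex, zero_add, pow_one]
    refine hC.trans (Nat.mul_le_mul_right _ ?_)
    refine card_le_card_of_injOn (fun a => (a, 0)) ?_ ?_
    · intro a ha
      rw [mem_coe, mem_QQ]
      intro u
      change a + lc u 0 ∈ C
      rw [lc_zero, add_zero]
      exact ha
    · intro a _ b _ hab
      exact (Prod.ext_iff.1 hab).1
  | succ m ih =>
    intro C s hC
    obtain ⟨h, hh⟩ : ∃ h, h = 31 * s + 62 := ⟨_, rfl⟩
    rw [ex, ← hh]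
    -- the sum of the sizes of the sets `CC C w`
    have h1 : (XX C).card = ∑ w : V, (CC C w).card := by
      rw [card_eq_sum_card_fiberwise (f := Prod.snd) (t := univ) (fun _ _ => mem_univ _)]
      refine sum_congr rfl fun w _ => ?_
      refine card_bij (fun p _ => p.1) ?_ ?_ ?_
      · intro p hp
        rw [mem_filter] at hp
        obtain ⟨hp1, hp2⟩ := hp
        obtain ⟨a, d⟩ := p
        simp only at hp2
        subst hp2
        rw [mem_XX] at hp1
        exact mem_filter.2 hp1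
      · intro p hp p' hp' hpp
        rw [mem_filter] at hp hp'
        exact Prod.ext hpp (hp.2.trans hp'.2.symm)
      · intro a ha
        have ha' := mem_filter.1 ha
        refine ⟨(a, w), ?_, rfl⟩
        rw [mem_filter, mem_XX]
        exact ⟨ha', rfl⟩
    obtain ⟨G, hG⟩ : ∃ G : Finset V, G = univ.filter fun w => q ≤ (CC C w).card * 3 ^ h := ⟨_, rfl⟩
    have h2 : q ≤ G.card * 3 ^ h := by
      have h3 := super C s (hq ▸ hC)
      rw [← hq, h1] at h3
      have h4 : (∑ w : V, (CC C w).card) * 3 ^ h ≤ G.card * q * 3 ^ h + q * q := by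
        rw [sum_mul]
        calc ∑ w : V, (CC C w).card * 3 ^ h ≤ ∑ w : V, ((if w ∈ G then q * 3 ^ h else 0) + q) := by
              refine sum_le_sum fun w _ => ?_
              by_cases hw : w ∈ G
              · rw [if_pos hw]
                refine le_trans (Nat.mul_le_mul_right _ ?_) (Nat.le_add_right _ _)
                rw [hq]
                exact card_le_univ _
              · rw [if_neg hw, zero_add]
                by_contra hc
                exact hw (by rw [hG, mem_filter]; exact ⟨mem_univ _, (not_le.1 hc).le⟩)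
          _ = G.card * q * 3 ^ h + q * q := by
              rw [sum_add_distrib, ← sum_filter, sum_const, sum_const, card_univ, ← hq, smul_eq_mul,
                smul_eq_mul]
              have : (univ.filter fun w => w ∈ G) = G := by ext; simp
              rw [this]
              ring
      have h5 : 3 * q ^ 2 ≤ (∑ w : V, (CC C w).card) * 3 ^ h := by
        have : 3 ^ h = 3 * 3 ^ (31 * s + 61) := by rw [hh, ← pow_succ']
        rw [this]
        calc 3 * q ^ 2 ≤ 3 * ((∑ w : V, (CC C w).card) * 3 ^ (31 * s + 61)) := Nat.mul_le_mul_left _ h3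
          _ = _ := by ring
      have h6 : q * q ≤ q * (G.card * 3 ^ h) := by
        have h7 : q ^ 2 = q * q := sq q
        have h8 : G.card * q * 3 ^ h = q * (G.card * 3 ^ h) := by ring
        rw [h7] at h5
        rw [h8] at h4
        omega
      exact Nat.le_of_mul_le_mul_left h6 hq0
    have h3 : ∑ w ∈ G, (QQ m (CC C w)).card ≤ (QQ (m + 1) C).card := by
      have h4 : ∑ w ∈ G, (QQ m (CC C w)).card ≤ ∑ w : V, (QQ m (CC C w)).card :=
        sum_le_sum_of_subset (subset_univ _)
      refine h4.trans ?_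
      rw [← card_sigma]
      refine card_le_card_of_injOn (fun p => (p.2.1, Fin.cons p.1 p.2.2)) ?_ ?_
      · rintro ⟨w, a, v⟩ hp
        rw [mem_coe, mem_sigma] at hp
        have hp2 := (mem_QQ _ _).1 hp.2
        rw [mem_coe, mem_QQ]
        intro u
        have h5 := hp2 (fun i => u i.succ)
        have h6 : lc u (Fin.cons w v : Fin (m + 1) → V) = u 0 • w + lc (fun i => u i.succ) v := by
          unfold lc
          rw [Fin.sum_univ_succ]
          simp only [Fin.cons_zero, Fin.cons_succ]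
        change a + lc u (Fin.cons w v : Fin (m + 1) → V) ∈ C
        rw [h6]
        have h7 := mem_filter.1 h5
        have h8 : u 0 = 0 ∨ u 0 = 1 ∨ u 0 = -1 := by
          generalize u 0 = x
          revert x
          decide
        rcases h8 with h8 | h8 | h8
        · rw [h8, zero_smul, zero_add]
          exact h7.1
        · rw [h8, one_smul]
          have := h7.2.1
          rwa [show a + (w + lc (fun i => u i.succ) v) = a + lc (fun i => u i.succ) v + w by abel]
        · rw [h8, neg_smul, one_smul]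
          have := h7.2.2
          rwa [show a + (-w + lc (fun i => u i.succ) v) = a + lc (fun i => u i.succ) v - w by abel]
      · rintro ⟨w, a, v⟩ _ ⟨w', a', v'⟩ _ hpp
        simp only [Prod.mk.injEq] at hpp
        obtain ⟨h5, h6⟩ := hpp
        have h7 : w = w' := by
          have := congrFun h6 0
          simpa using this
        have h8 : v = v' := by
          funext i
          have := congrFun h6 i.succ
          simpa using this
        subst h5 h7 h8
        rfl
    have h4 : G.card * q ^ (m + 1) ≤ (∑ w ∈ G, (QQ m (CC C w)).card) * 3 ^ ex m h := by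
      rw [sum_mul, ← smul_eq_mul, ← sum_const]
      refine sum_le_sum fun w hw => ?_
      rw [hG, mem_filter] at hw
      exact ih (CC C w) h hw.2
    calc q ^ (m + 1 + 1) = q * q ^ (m + 1) := by ring
      _ ≤ G.card * 3 ^ h * q ^ (m + 1) := Nat.mul_le_mul_right _ h2
      _ = 3 ^ h * (G.card * q ^ (m + 1)) := by ring
      _ ≤ 3 ^ h * ((∑ w ∈ G, (QQ m (CC C w)).card) * 3 ^ ex m h) := Nat.mul_le_mul_left _ h4
      _ ≤ 3 ^ h * ((QQ (m + 1) C).card * 3 ^ ex m h) :=
          Nat.mul_le_mul_left _ (Nat.mul_le_mul_right _ h3)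
      _ = (QQ (m + 1) C).card * 3 ^ (h + ex m h) := by rw [pow_add]; ring

end

end Pool.Agent.Q250.VSR
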